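import Pool.Agent.H104R3.EG.Stmts2

set_option autoImplicit false

/-! Project EG, second stage, task G14: the step for abelian minimal normal subgroups. The proof
follows the one of the solvable case (`Pool.Agent.H71R3.EG.taskSolvInc`, by helper71). -/

namespace Pool.Agent.H170.EG

open Pool.Agent.H104R3.EG

lemma Real.mono' {G : Type} [Group G] {m n : ℕ} {P Q : (G → G) → Prop} (h : Real G m P)
    (hmn : m ≤ n) (hPQ : ∀ α, P α → Q α) : Real G n Q := by
  obtain ⟨S, hS, hP⟩ := h
  exact ⟨S, hS.trans hmn, fun α hα => hPQ α (hP α hα)⟩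

lemma card_eq' {G : Type} [Group G] [Finite G] (K M : Subgroup G) (hKM : K ≤ M) :
    (M.index * Nat.card (M ⧸ K.subgroupOf M)) * Nat.card K = Nat.card G := by
  have h1 : Nat.card (M ⧸ K.subgroupOf M) * Nat.card (K.subgroupOf M) = Nat.card M :=
    (Subgroup.card_eq_card_quotient_mul_card_subgroup _).symm
  have h2 : Nat.card (K.subgroupOf M) = Nat.card K :=
    Nat.card_congr (Subgroup.subgroupOfEquivOfLe hKM).toEquiv
  have h3 : Nat.card M * M.index = Nat.card G := Subgroup.card_mul_index M
  rw [h2] at h1
  rw [← h3, ← h1]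
  ring

lemma pgroup_map' {G : Type} [Group G] (p : ℕ) (N M : Subgroup G) (hN : IsPGroup p N)
    {H : Type} [Group H] (f : M →* H) : IsPGroup p ((N.subgroupOf M).map f) := by
  have h1 : IsPGroup p (N.subgroupOf M) := hN.comap_of_injective M.subtype M.subtype_injective
  exact h1.map f

theorem taskIncG : TaskIncG := by
  intro hComb hInv hSect hAvoid hSub hGens hSRig hPInc hPRig hPMin hStr hCase hMin
  intro s G _ _ hsec hyp p hp N hN hpN
  have hG : 0 < Nat.card G := Nat.card_pos
  have : N.Normal := hN.1
  have nebot : ∀ K M : Subgroup G, K ≤ M → K ≠ ⊥ → K.subgroupOf M ≠ ⊥ := by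
    intro K M hle hK h
    rw [Subgroup.subgroupOf_eq_bot] at h
    exact hK (by rw [← inf_eq_left.mpr hle]; exact disjoint_iff.mp h)
  -- the section step
  have sect : ∀ K M : Subgroup G, (K.subgroupOf M).Normal → K ≤ M → N ≤ M → K ≠ ⊥ → K ⊓ N = ⊥ →
      (∀ L : Subgroup G, L ≤ N → (∀ m ∈ M, ∀ x ∈ L, m * x * m⁻¹ ∈ L) → L.Normal) →
      Real G (3 * Nat.card G + (89 + 11 * s) * Nat.card G)
        (fun α => ModN N α → ∀ x ∈ M, Comm α x) := by
    intro K M hKM hle hNM hK hKN hL
    have := hKM
    have hb := card_eq' K M hle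
    have hK2 : 2 ≤ Nat.card K := by
      have := (Subgroup.one_lt_card_iff_ne_bot K).mpr hK
      omega
    have hmin := hMin G N K M hN hle hNM hKN hL
    have hinc := (hyp M (K.subgroupOf M) (nebot K M hle hK)).2 p hp _ hmin (pgroup_map' p N M hpN _)
    have hs := hSect G N K M _ hle hKN hinc
    refine Real.mono' hs ?_ fun α h => h
    have h2 : (M.index * Nat.card (M ⧸ K.subgroupOf M)) * 2 ≤ Nat.card G := by
      calc _ ≤ (M.index * Nat.card (M ⧸ K.subgroupOf M)) * Nat.card K := Nat.mul_le_mul_left _ hK2
        _ = _ := hb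
    calc 3 * Nat.card G + M.index * ((178 + 21 * s) * Nat.card (M ⧸ K.subgroupOf M))
        ≤ 3 * Nat.card G + M.index * ((178 + 22 * s) * Nat.card (M ⧸ K.subgroupOf M)) := by
          gcongr
          omega
      _ = 3 * Nat.card G + (89 + 11 * s) * ((M.index * Nat.card (M ⧸ K.subgroupOf M)) * 2) := by
          ring
      _ ≤ _ := by gcongr
  by_cases hW : ∃ W : Subgroup G, W.Normal ∧ W ≠ ⊥ ∧ W ⊓ N = ⊥
  · obtain ⟨W, hWn, hWb, hWN⟩ := hW
    have h1 := sect W ⊤ (by infer_instance) le_top le_top hWb hWN (fun L _ h =>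
      ⟨fun x hx m => h m (Subgroup.mem_top m) x hx⟩)
    exact Real.mono' h1 (by nlinarith) fun α h hm x => h hm x (Subgroup.mem_top x)
  · push Not at hW
    by_cases hpG : IsPGroup p G
    · obtain ⟨hc, hcard⟩ := hPMin p hp G hpG N hN
      exact Real.mono' (hPInc p hp G hpG N hc hcard) (by nlinarith) fun α h => h
    · obtain ⟨P, Q, hP, hNP, hQb, hQN, hPQ⟩ := hStr s G hsec p hp N hN hpN
        (fun W hWn hWN => by
          by_contra hne
          exact hW W hWn hne hWN) hpG
      -- the subgroup `P`
      have hsub : Real G (46 * Nat.card G) (fun α => ∀ x ∈ P, Comm α x) := by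
        have h1 := hSub G P _ (hPRig p hp P hP)
        refine Real.mono' h1 ?_ fun α h => h
        have h2 : Nat.card P * P.index = Nat.card G := Subgroup.card_mul_index P
        have h3 : P.index ≤ Nat.card G := Nat.le_of_dvd hG (Subgroup.index_dvd_card P)
        have h4 : P.index * (44 * Nat.card P) = 44 * Nat.card G := by
          rw [← h2]; ring
        omega
      rcases hPQ with hPQ | ⟨hQ3, x, hPQ⟩
      · obtain ⟨hcase, hL⟩ := hCase G N P Q hN hNP hQN hPQ
        have hM : Real G (3 * Nat.card G + (89 + 11 * s) * Nat.card G)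
            (fun α => ModN N α → ∀ x ∈ Subgroup.normalizer (Q : Set G), Comm α x) := by
          rcases hcase with h | h
          · exact Real.mono' (hAvoid G N _ h) (by nlinarith) fun α h => h
          · exact sect Q _ (by infer_instance) Subgroup.le_normalizer h hQb hQN hL
        refine Real.mono' (hComb G _ _ _ _ hsub hM) (by nlinarith) ?_
        rintro α ⟨h1, h2⟩ hmod x
        obtain ⟨I, hI⟩ := hInv G α
        have h3 : P ⊔ Subgroup.normalizer (Q : Set G) ≤ I :=
          sup_le (fun y hy => (hI y).mpr (h1 y hy)) (fun y hy => (hI y).mpr (h2 hmod y hy))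
        rw [hPQ] at h3
        exact (hI x).mp (h3 (Subgroup.mem_top x))
      · have hM : Real G (3 * Nat.card G + (120 + 14 * s) * Nat.card G)
            (fun α => ∀ x ∈ Subgroup.normalizer (Q : Set G), ∀ k, ∃ y ∈ Q,
              α (k * x) = α k * x * y) := by
          have hle : Q ≤ Subgroup.normalizer (Q : Set G) := Subgroup.le_normalizer
          have : (Q.subgroupOf (Subgroup.normalizer (Q : Set G))).Normal := by infer_instance
          have hr := (hyp (Subgroup.normalizer (Q : Set G))
            (Q.subgroupOf (Subgroup.normalizer (Q : Set G))) (nebot _ _ hle hQb)).1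
          refine Real.mono' (hSRig G Q _ _ hle hr) ?_ fun α h => h
          have hb := card_eq' Q (Subgroup.normalizer (Q : Set G)) hle
          have h2 : ((Subgroup.normalizer (Q : Set G)).index *
              Nat.card (Subgroup.normalizer (Q : Set G) ⧸
                Q.subgroupOf (Subgroup.normalizer (Q : Set G)))) * 3 ≤ Nat.card G := by
            calc _ ≤ ((Subgroup.normalizer (Q : Set G)).index *
                Nat.card (Subgroup.normalizer (Q : Set G) ⧸
                  Q.subgroupOf (Subgroup.normalizer (Q : Set G)))) * Nat.card Q :=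
                  Nat.mul_le_mul_left _ hQ3
              _ = _ := hb
          calc 3 * Nat.card G + (Subgroup.normalizer (Q : Set G)).index * ((360 + 42 * s) *
                Nat.card (Subgroup.normalizer (Q : Set G) ⧸
                  Q.subgroupOf (Subgroup.normalizer (Q : Set G))))
              = 3 * Nat.card G + (120 + 14 * s) * (((Subgroup.normalizer (Q : Set G)).index *
              Nat.card (Subgroup.normalizer (Q : Set G) ⧸
                Q.subgroupOf (Subgroup.normalizer (Q : Set G)))) * 3) := by ring
            _ ≤ _ := by gcongr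
        have hgen := hGens G s x
        refine Real.mono' (hComb G _ _ _ _ (hComb G _ _ _ _ hsub hM) hgen) (by nlinarith) ?_
        rintro α ⟨⟨h1, h2⟩, h4⟩ hmod z
        obtain ⟨I, hI⟩ := hInv G α
        have h3 : P ⊔ Subgroup.normalizer (Q : Set G) ⊔ Subgroup.closure (Set.range x) ≤ I := by
          refine sup_le (sup_le (fun y hy => (hI y).mpr (h1 y hy)) (fun y hy => (hI y).mpr ?_)) ?_
          · intro k
            obtain ⟨u, hu, hu2⟩ := h2 y hy k
            obtain ⟨v, hv, hv2⟩ := hmod k y
            have huv : u = v := by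
              rw [hu2] at hv2
              exact mul_left_cancel hv2
            have hu3 : u ∈ Q ⊓ N := ⟨hu, huv ▸ hv⟩
            rw [hQN, Subgroup.mem_bot] at hu3
            rw [hu2, hu3, mul_one]
          · rw [Subgroup.closure_le]
            rintro _ ⟨i, rfl⟩
            exact (hI _).mpr (h4 i)
        rw [hPQ] at h3
        exact (hI z).mp (h3 (Subgroup.mem_top z))

end Pool.Agent.H170.EG
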